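import Mathlib

/-!
# Bifurcation values at infinity and asymptotic rho-nonregular values differ

For `f = y (x^2 y^2 + 5 x y + 7)` the map `(x, y) ↦ (x / g (x y), f)` with `g u = u^2 + 5 u + 7 > 0`
is a diffeomorphism of the plane, so `f` has no bifurcation value at infinity. On the other hand
`(u g(u))' = 3 u^2 + 10 u + 7` has the simple root `-1`, and this produces, for every centre `a`, a
branch of the Milnor set `M_a(f)` going to infinity along which `f` tends to `0`.
-/

set_option autoImplicit false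

namespace Pool.Agent.Results.MP_025584_ag.NotEqual

open Filter Topology Set
open scoped Manifold ContDiff

/-- Euclidean space of dimension `n`. -/
abbrev E (n : ℕ) := EuclideanSpace ℝ (Fin n)

/-- The polynomial function of a real polynomial. -/
noncomputable def fn {n : ℕ} (f : MvPolynomial (Fin n) ℝ) (x : E n) : ℝ :=
  MvPolynomial.eval (fun i => x i) f

/-- The gradient of a real polynomial. -/
noncomputable def grad {n : ℕ} (f : MvPolynomial (Fin n) ℝ) (x : E n) : E n :=
  WithLp.toLp 2 fun i => MvPolynomial.eval (fun i => x i) (MvPolynomial.pderiv i f)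

/-- The function `p : E n → ℝ`, restricted to the open set `U`, is a locally trivial smooth
fibration over the open set `D`: it maps `U` to `D`, and every point of `D` has an open
neighbourhood `D'` in `D` for which there are a smooth manifold `F` and a diffeomorphism
`(p, φ)` from `U ∩ p ⁻¹' D'` onto `D' × F`, whose inverse is `ψ`. -/
def IsLocallyTrivialOn {n : ℕ} (p : E n → ℝ) (U : Set (E n)) (D : Set ℝ) : Prop :=
  (∀ x ∈ U, p x ∈ D) ∧ ∀ t ∈ D, ∃ D' : Set ℝ, IsOpen D' ∧ t ∈ D' ∧ D' ⊆ D ∧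
    ∃ (m : ℕ) (F : Type) (_ : TopologicalSpace F) (_ : ChartedSpace (E m) F)
      (_ : IsManifold (𝓘(ℝ, E m)) ∞ F) (φ : E n → F) (ψ : ℝ × F → E n),
      ContMDiffOn 𝓘(ℝ, E n) 𝓘(ℝ, E m) ∞ φ (U ∩ p ⁻¹' D') ∧
      ContMDiffOn (𝓘(ℝ, ℝ).prod 𝓘(ℝ, E m)) 𝓘(ℝ, E n) ∞ ψ (D' ×ˢ univ) ∧
      (∀ x ∈ U ∩ p ⁻¹' D', ψ (p x, φ x) = x) ∧
      ∀ s ∈ D', ∀ y : F, ψ (s, y) ∈ U ∩ p ⁻¹' D' ∧ p (ψ (s, y)) = s ∧ φ (ψ (s, y)) = y

/-- `f` is topologically trivial at infinity at `t₀`: for some compact set `K` and some open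
interval `D` centred at `t₀`, the restriction of `f` to `f ⁻¹' D \ K` is a locally trivial smooth
fibration over `D`. -/
def TrivialAtInfinityAt {n : ℕ} (f : MvPolynomial (Fin n) ℝ) (t₀ : ℝ) : Prop :=
  ∃ K : Set (E n), IsCompact K ∧ ∃ δ : ℝ, 0 < δ ∧
    IsLocallyTrivialOn (fn f) ((fn f ⁻¹' Ioo (t₀ - δ) (t₀ + δ)) \ K) (Ioo (t₀ - δ) (t₀ + δ))

/-- The set of bifurcation values at infinity. -/
def bifurcationValuesAtInfinity {n : ℕ} (f : MvPolynomial (Fin n) ℝ) : Set ℝ :=
  {t₀ | ¬ TrivialAtInfinityAt f t₀}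

/-- The Milnor set `M_a(f)`: the points where `grad f (x)` and `x - a` are linearly dependent. -/
def milnorSet {n : ℕ} (f : MvPolynomial (Fin n) ℝ) (a : E n) : Set (E n) :=
  {x | ¬ LinearIndependent ℝ ![grad f x, x - a]}

/-- The set `S_a(f)` of asymptotic `ρ_a`-nonregular values. -/
def asymptoticNonregular {n : ℕ} (f : MvPolynomial (Fin n) ℝ) (a : E n) : Set ℝ :=
  {t₀ | ∃ x : ℕ → E n, (∀ j, x j ∈ milnorSet f a) ∧
    Tendsto (fun j => ‖x j‖) atTop atTop ∧ Tendsto (fun j => fn f (x j)) atTop (𝓝 t₀)}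

/-- The set `S_∞(f)`, the intersection of all `S_a(f)`. -/
def asymptoticNonregularInfinity {n : ℕ} (f : MvPolynomial (Fin n) ℝ) : Set ℝ :=
  ⋂ a : E n, asymptoticNonregular f a

/-- The polynomial `y (x^2 y^2 + 5 x y + 7)`. -/
noncomputable def poly : MvPolynomial (Fin 2) ℝ :=
  MvPolynomial.X 1 * (MvPolynomial.X 0 ^ 2 * MvPolynomial.X 1 ^ 2
    + MvPolynomial.C 5 * (MvPolynomial.X 0 * MvPolynomial.X 1) + MvPolynomial.C 7)

/-- The polynomial `u^2 + 5 u + 7`. -/
def g (u : ℝ) : ℝ := u ^ 2 + 5 * u + 7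

theorem g_pos (u : ℝ) : 0 < g u := by
  unfold g
  nlinarith [sq_nonneg (u + 5 / 2)]

theorem fn_poly (x : E 2) : fn poly x = x 1 * g (x 0 * x 1) := by
  simp only [fn, poly, g, map_mul, map_add, map_pow, MvPolynomial.eval_X, MvPolynomial.eval_C]
  ring

theorem grad_poly_zero (x : E 2) : grad poly x 0 = (x 1) ^ 2 * (2 * (x 0 * x 1) + 5) := by
  simp only [grad, poly]
  simp [MvPolynomial.pderiv_X, Derivation.leibniz]
  ring

theorem grad_poly_one (x : E 2) :
    grad poly x 1 = 3 * (x 0 * x 1) ^ 2 + 10 * (x 0 * x 1) + 7 := by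
  simp only [grad, poly]
  simp [MvPolynomial.pderiv_X, Derivation.leibniz]
  ring

theorem contDiff_coord {n : ℕ} (i : Fin n) : ContDiff ℝ ∞ (fun x : E n => x i) :=
  (EuclideanSpace.proj (𝕜 := ℝ) i).contDiff

theorem contDiff_g : ContDiff ℝ ∞ g := by
  unfold g
  fun_prop

/-- `poly` is a globally trivial fibration. -/
theorem trivial_poly (t₀ : ℝ) : TrivialAtInfinityAt poly t₀ := by
  refine ⟨∅, isCompact_empty, 1, one_pos, ?_, ?_⟩
  · rintro x ⟨hx, -⟩
    exact hx
  intro t ht
  refine ⟨Ioo (t₀ - 1) (t₀ + 1), isOpen_Ioo, ht, subset_rfl, 1, E 1, inferInstance, inferInstance,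
    inferInstance, fun x => WithLp.toLp 2 fun _ => x 0 / g (x 0 * x 1),
    fun q => !₂[q.2 0 * g (q.2 0 * q.1), q.1 / g (q.2 0 * q.1)], ?_, ?_, ?_, ?_⟩
  · rw [contMDiffOn_iff_contDiffOn]
    refine ContDiff.contDiffOn ?_
    rw [contDiff_euclidean]
    intro i
    refine (contDiff_coord 0).div (contDiff_g.comp ((contDiff_coord 0).mul (contDiff_coord 1))) ?_
    intro x
    exact (g_pos _).ne'
  · rw [← modelWithCornersSelf_prod, chartedSpaceSelf_prod, contMDiffOn_iff_contDiffOn]
    refine ContDiff.contDiffOn ?_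
    rw [contDiff_euclidean]
    have h0 : ContDiff ℝ ∞ (fun q : ℝ × E 1 => q.2 0) := (contDiff_coord 0).comp contDiff_snd
    have h1 : ContDiff ℝ ∞ (fun q : ℝ × E 1 => g (q.2 0 * q.1)) :=
      contDiff_g.comp (h0.mul contDiff_fst)
    intro i
    fin_cases i
    · exact h0.mul h1
    · exact contDiff_fst.div h1 fun q => (g_pos _).ne'
  · rintro x -
    have hg := (g_pos (x 0 * x 1)).ne'
    have key : x 0 / g (x 0 * x 1) * (x 1 * g (x 0 * x 1)) = x 0 * x 1 := by
      field_simp
    ext i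
    fin_cases i
    · simp only [fn_poly]
      change x 0 / g (x 0 * x 1) * g (x 0 / g (x 0 * x 1) * (x 1 * g (x 0 * x 1))) = x 0
      rw [key]
      field_simp
    · simp only [fn_poly]
      change (x 1 * g (x 0 * x 1)) / g (x 0 / g (x 0 * x 1) * (x 1 * g (x 0 * x 1))) = x 1
      rw [key, mul_div_assoc, div_self hg, mul_one]
  · intro s hs y
    have hg := (g_pos (y 0 * s)).ne'
    have key : y 0 * g (y 0 * s) * (s / g (y 0 * s)) = y 0 * s := by
      field_simp
    have hp : fn poly (!₂[y 0 * g (y 0 * s), s / g (y 0 * s)]) = s := by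
      rw [fn_poly]
      change s / g (y 0 * s) * g (y 0 * g (y 0 * s) * (s / g (y 0 * s))) = s
      rw [key, div_mul_cancel₀ _ hg]
    have hm : fn poly (!₂[y 0 * g (y 0 * s), s / g (y 0 * s)]) ∈ Ioo (t₀ - 1) (t₀ + 1) := by
      rw [hp]
      exact hs
    refine ⟨⟨⟨hm, by simp⟩, hm⟩, hp, ?_⟩
    · ext i
      have hi : i = 0 := Subsingleton.elim _ _
      subst hi
      change y 0 * g (y 0 * s) / g (y 0 * g (y 0 * s) * (s / g (y 0 * s))) = y 0
      rw [key]
      field_simp

theorem mem_milnorSet (a x : E 2)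
    (h : (x 1 - a 1) * grad poly x 0 = (x 0 - a 0) * grad poly x 1)
    (h1 : x - a ≠ 0) : x ∈ milnorSet poly a := by
  intro hli
  rw [LinearIndependent.pair_iff] at hli
  have hx : (x 0 - a 0) ≠ 0 ∨ (x 1 - a 1) ≠ 0 := by
    by_contra hcon
    push Not at hcon
    apply h1
    ext i
    fin_cases i
    · exact hcon.1
    · exact hcon.2
  rcases hx with hx | hx
  · have := hli (x 0 - a 0) (-grad poly x 0) (by
      ext i
      fin_cases i
      · change (x 0 - a 0) * grad poly x 0 + (-grad poly x 0) * (x 0 - a 0) = 0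
        ring
      · change (x 0 - a 0) * grad poly x 1 + (-grad poly x 0) * (x 1 - a 1) = 0
        linarith)
    exact hx this.1
  · have := hli (x 1 - a 1) (-grad poly x 1) (by
      ext i
      fin_cases i
      · change (x 1 - a 1) * grad poly x 0 + (-grad poly x 1) * (x 0 - a 0) = 0
        linarith
      · change (x 1 - a 1) * grad poly x 1 + (-grad poly x 1) * (x 1 - a 1) = 0
        ring)
    exact hx this.1

/-- For small `s > 0` the Milnor set of `poly` has a point `(u / s, s)` with `u` near `-1`. -/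
theorem exists_root (α β : ℝ) : ∀ᶠ s in 𝓝[>] (0 : ℝ), ∃ u ∈ Icc (-3 / 2 : ℝ) (-1 / 2),
    (s - β) * s ^ 3 * (2 * u + 5) = (u - α * s) * (3 * u ^ 2 + 10 * u + 7) := by
  have hc : ∀ c : ℝ, Continuous fun s : ℝ =>
      (s - β) * s ^ 3 * (2 * c + 5) - (c - α * s) * (3 * c ^ 2 + 10 * c + 7) := by
    intro c
    fun_prop
  have h1 : ∀ᶠ s in 𝓝[>] (0 : ℝ), (s - β) * s ^ 3 * (2 * (-1 / 2 : ℝ) + 5)
      - ((-1 / 2 : ℝ) - α * s) * (3 * (-1 / 2 : ℝ) ^ 2 + 10 * (-1 / 2 : ℝ) + 7) > 0 := by
    refine ((hc (-1 / 2)).tendsto 0).eventually (lt_mem_nhds ?_) |>.filter_mono nhdsWithin_le_nhds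
    norm_num
  have h2 : ∀ᶠ s in 𝓝[>] (0 : ℝ), (s - β) * s ^ 3 * (2 * (-3 / 2 : ℝ) + 5)
      - ((-3 / 2 : ℝ) - α * s) * (3 * (-3 / 2 : ℝ) ^ 2 + 10 * (-3 / 2 : ℝ) + 7) < 0 := by
    refine ((hc (-3 / 2)).tendsto 0).eventually (gt_mem_nhds ?_) |>.filter_mono nhdsWithin_le_nhds
    norm_num
  filter_upwards [h1, h2] with s hs1 hs2
  have hcont : ContinuousOn (fun u : ℝ => (s - β) * s ^ 3 * (2 * u + 5)
      - (u - α * s) * (3 * u ^ 2 + 10 * u + 7)) (Icc (-3 / 2) (-1 / 2)) := by
    fun_prop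
  have := intermediate_value_Icc (by norm_num : (-3 / 2 : ℝ) ≤ -1 / 2) hcont ⟨hs2.le, hs1.le⟩
  obtain ⟨u, hu, h0⟩ := this
  exact ⟨u, hu, by linarith [h0]⟩

theorem zero_mem (a : E 2) : (0 : ℝ) ∈ asymptoticNonregular poly a := by
  have hev := exists_root (a 0) (a 1)
  have hev2 : ∀ᶠ s in 𝓝[>] (0 : ℝ), s < 1 / (2 * (|a 0| + 1)) := by
    refine Filter.Eventually.filter_mono nhdsWithin_le_nhds (gt_mem_nhds ?_)
    positivity
  have hseq : Tendsto (fun j : ℕ => 1 / ((j : ℝ) + 1)) atTop (𝓝[>] 0) := by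
    refine tendsto_nhdsWithin_iff.2 ⟨tendsto_one_div_add_atTop_nhds_zero_nat, ?_⟩
    refine Eventually.of_forall fun j => ?_
    change 0 < 1 / ((j : ℝ) + 1)
    positivity
  obtain ⟨N, hN⟩ := (hseq.eventually (hev.and hev2)).exists_forall_of_atTop
  choose u hu using fun j : ℕ => (hN (j + N) (by omega)).1
  have hs2 := fun j : ℕ => (hN (j + N) (by omega)).2
  set s : ℕ → ℝ := fun j => 1 / (((j + N : ℕ) : ℝ) + 1) with hs
  have hspos : ∀ j, 0 < s j := fun j => by
    change 0 < 1 / (((j + N : ℕ) : ℝ) + 1)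
    positivity
  have hslim : Tendsto s atTop (𝓝 0) := by
    have := (tendsto_nhdsWithin_iff.1 hseq).1
    exact this.comp (tendsto_add_atTop_nat N)
  refine ⟨fun j => !₂[u j / s j, s j], fun j => ?_, ?_, ?_⟩
  · have hsj := (hspos j).ne'
    have hprod : u j / s j * s j = u j := by field_simp
    apply mem_milnorSet
    · rw [grad_poly_zero, grad_poly_one]
      change (s j - a 1) * ((s j) ^ 2 * (2 * (u j / s j * s j) + 5))
        = (u j / s j - a 0) * (3 * (u j / s j * s j) ^ 2 + 10 * (u j / s j * s j) + 7)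
      rw [hprod]
      have h3 := (hu j).2
      change (s j - a 1) * (s j) ^ 3 * (2 * u j + 5)
        = (u j - a 0 * s j) * (3 * u j ^ 2 + 10 * u j + 7) at h3
      have h4 : (u j / s j - a 0) = (u j - a 0 * s j) / s j := by field_simp
      rw [h4]
      field_simp
      linarith
    · intro hcon
      have h0 : u j / s j - a 0 = 0 := congrArg (fun z : E 2 => z 0) hcon
      have h1 : u j = a 0 * s j := by
        field_simp at h0
        linarith
      have h2 : s j < 1 / (2 * (|a 0| + 1)) := hs2 j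
      have h3 := (hu j).1.2
      have h4 : |a 0 * s j| < 1 / 2 := by
        rw [abs_mul, abs_of_pos (hspos j)]
        have h5 : 0 < |a 0| + 1 := by positivity
        rw [lt_div_iff₀ (by positivity)] at h2
        nlinarith [abs_nonneg (a 0), hspos j]
      rw [← h1] at h4
      have := (abs_lt.1 h4).1
      linarith
  · have hlow : ∀ j : ℕ, (1 / 2) * ((j : ℝ)) ≤ ‖(!₂[u j / s j, s j] : E 2)‖ := by
      intro j
      have h1 : ‖(!₂[u j / s j, s j] : E 2) 0‖ ≤ ‖(!₂[u j / s j, s j] : E 2)‖ :=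
        PiLp.norm_apply_le _ _
      refine le_trans ?_ h1
      change (1 / 2) * ((j : ℝ)) ≤ |u j / s j|
      rw [abs_div, abs_of_pos (hspos j)]
      have h3 := (hu j).1.2
      have h4 : 1 / 2 ≤ |u j| := by
        rw [abs_of_neg (by linarith)]
        linarith
      have h5 : s j * (((j + N : ℕ) : ℝ) + 1) = 1 := by
        change 1 / (((j + N : ℕ) : ℝ) + 1) * (((j + N : ℕ) : ℝ) + 1) = 1
        have : (((j + N : ℕ) : ℝ) + 1) ≠ 0 := by positivity
        field_simp
      rw [le_div_iff₀ (hspos j)]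
      have h6 : (j : ℝ) * s j ≤ 1 := by
        have h7 : (j : ℝ) ≤ (((j + N : ℕ) : ℝ) + 1) := by
          push_cast
          have : (0 : ℝ) ≤ N := Nat.cast_nonneg N
          linarith
        nlinarith [hspos j]
      linarith
    refine tendsto_atTop_mono hlow ?_
    exact Tendsto.const_mul_atTop (by norm_num) tendsto_natCast_atTop_atTop
  · have hval : ∀ j, fn poly (!₂[u j / s j, s j]) = s j * g (u j) := by
      intro j
      rw [fn_poly]
      change s j * g (u j / s j * s j) = _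
      have hsj := (hspos j).ne'
      have hprod : u j / s j * s j = u j := by field_simp
      rw [hprod]
    simp only [hval]
    have hb : ∀ j : ℕ, |g (u j)| ≤ 7 := by
      intro j
      have h1 := (hu j).1.1
      have h2 := (hu j).1.2
      rw [abs_of_pos (g_pos _)]
      unfold g
      nlinarith
    refine squeeze_zero_norm (a := fun j => s j * 7) (fun j => ?_) ?_
    · rw [norm_mul]
      have : ‖s j‖ = s j := by
        rw [Real.norm_eq_abs, abs_of_pos (hspos j)]
      rw [this]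
      exact mul_le_mul_of_nonneg_left (hb j) (hspos j).le
    · simpa using hslim.mul_const 7

/-- **Theorem.** There is a real polynomial in two variables that has no bifurcation value at
infinity, while `0` is an asymptotic `ρ_a`-nonregular value for every centre `a`. In particular the
equality of the two sets fails. -/
theorem result : ∃ f : MvPolynomial (Fin 2) ℝ,
    bifurcationValuesAtInfinity f = ∅ ∧ (0 : ℝ) ∈ asymptoticNonregularInfinity f := by
  refine ⟨poly, ?_, ?_⟩
  · ext t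
    simp only [bifurcationValuesAtInfinity, mem_ofPred_eq, mem_empty_iff_false, iff_false, not_not]
    exact trivial_poly t
  · exact mem_iInter.2 zero_mem

end Pool.Agent.Results.MP_025584_ag.NotEqual
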